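import Pool.Agent.H29.KW2

set_option autoImplicit false

namespace Pool.Agent.Results.MP_97409a_pr.Counter

open MeasureTheory Pool.Agent.H29.KW2

theorem result : ∃ (τ σ : Measure ℝ) (ET ES ES2 ρ : ℝ),
    IsProbabilityMeasure τ ∧ IsProbabilityMeasure σ ∧
    (∀ᵐ t ∂τ, 0 ≤ t) ∧ (∀ᵐ s ∂σ, 0 ≤ s) ∧ MemLp id 2 τ ∧ MemLp id 2 σ ∧
    ET = ∫ t, t ∂τ ∧ ES = ∫ s, s ∂σ ∧ ES2 = ∫ s, s ^ 2 ∂σ ∧ 0 < ET ∧
    ρ = ES / (2 * ET) ∧ 1 - 1 / 2 ≤ ρ ∧ ρ < 1 ∧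
    (∃ π, Stationary τ σ π) ∧
    ∀ π, Stationary τ σ π → Integrable Prod.fst π ∧
      2 * 2 ^ 2 * ρ * (1 - ρ) * ET * ∫ w, w.1 ∂π <
        (1 - 2 * (1 - ρ)) * max (ES2 - (2 * 2 - 1) * ES * ET + 2 * (2 - 1) * ET ^ 2) 0 := by
  refine ⟨Measure.dirac 1, two 0 2, 1, 3 / 2, 3, 3 / 4, inferInstance, inferInstance, by simp,
    two_ae _ _ (by simp) (by simp), ?_, ?_, by simp, by rw [two_int]; norm_num,
    by rw [two_int]; norm_num, one_pos, by norm_num, by norm_num, by norm_num, ⟨_, stat0⟩,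
    fun π h => ?_⟩
  · exact MemLp.of_bound aestronglyMeasurable_id 1 (by simp)
  · exact MemLp.of_bound aestronglyMeasurable_id 2 (two_ae _ _ (by simp) (by simp))
  · rw [uniq h]
    refine ⟨two_integrable _ _ _, ?_⟩
    rw [two_int]; norm_num

end Pool.Agent.Results.MP_97409a_pr.Counter
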